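import Pool.Agent.J4H20.TP.Stm

/-!
# Project TP: residue degree and ramification at `q` (`S_DEG`, `S_DSC`)
-/

set_option autoImplicit false

namespace Pool.Agent.J4H82.TP

open Polynomial NumberField nonZeroDivisors Pool.Agent.J4H20.TP

section Val

variable {K : Type} [Field K] {Γ : Type} [LinearOrderedCommGroupWithZero Γ] (v : Valuation K Γ)

/-- a polynomial of degree less than `N` is smaller than `θ ^ N` -/
lemma pol_lt (hz : ∀ z : ℤ, v (z : K) ≤ 1) (θ : K) (hθ : 1 < v θ) (r : ℤ[X]) (N : ℕ)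
    (hr : r.degree < (N : ℕ)) : v (aeval θ r) < v θ ^ N := by
  have h0 : (0 : Γ) < v θ := lt_trans zero_lt_one hθ
  by_cases hr0 : r = 0
  · subst hr0
    rw [map_zero, map_zero]
    exact pow_pos h0 N
  have hN : r.natDegree < N := (natDegree_lt_iff_degree_lt hr0).mpr hr
  rw [aeval_eq_sum_range' hN]
  refine Valuation.map_sum_lt v (pow_pos h0 N).ne' fun i hi => ?_
  rw [Finset.mem_range] at hi
  rw [zsmul_eq_mul, map_mul, map_pow]
  calc v ((r.coeff i : ℤ) : K) * v θ ^ i ≤ 1 * v θ ^ i := by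
        exact mul_le_mul_left (hz _) _
    _ = v θ ^ i := one_mul _
    _ < v θ ^ N := pow_lt_pow_right₀ hθ hi

lemma pol_monic (hz : ∀ z : ℤ, v (z : K) ≤ 1) (θ : K) (hθ : 1 < v θ) (g : ℤ[X]) (hg : g.Monic) :
    v (aeval θ g) = v θ ^ g.natDegree := by
  have h1 : g = X ^ g.natDegree + (g - X ^ g.natDegree) := by ring
  have h2 : (g - X ^ g.natDegree).degree < ((g.natDegree : ℕ) : WithBot ℕ) := by
    have : (g - X ^ g.natDegree).degree < g.degree := by
      refine degree_sub_lt_left ?_ hg.ne_zero ?_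
      · rw [degree_X_pow, degree_eq_natDegree hg.ne_zero]
      · rw [hg.leadingCoeff, (monic_X_pow _).leadingCoeff]
    rwa [degree_eq_natDegree hg.ne_zero] at this
  have h3 := pol_lt v hz θ hθ _ _ h2
  have h4 : aeval θ g = θ ^ g.natDegree + aeval θ (g - X ^ g.natDegree) := by
    rw [map_sub, map_pow, aeval_X]; ring
  rw [h4, Valuation.map_add_eq_of_lt_left, map_pow]
  rwa [map_pow]

lemma pol_le (hz : ∀ z : ℤ, v (z : K) ≤ 1) (θ : K) (hθ : v θ ≤ 1) (g : ℤ[X]) :
    v (aeval θ g) ≤ 1 := by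
  rw [aeval_eq_sum_range]
  refine Valuation.map_sum_le v fun i _ => ?_
  rw [zsmul_eq_mul, map_mul, map_pow]
  exact mul_le_one' (hz _) (pow_le_one' hθ i)

lemma pow_sub (a b : K) (ha : v a ≤ 1) (hb : v b ≤ 1) (hab : v (a - b) < 1) (n : ℕ) :
    v (a ^ n - b ^ n) < 1 := by
  induction n with
  | zero => simp
  | succ n ih =>
    have h : a ^ (n + 1) - b ^ (n + 1) = a * (a ^ n - b ^ n) + (a - b) * b ^ n := by ring
    rw [h]
    refine lt_of_le_of_lt (v.map_add _ _) (max_lt ?_ ?_)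
    · rw [map_mul]
      exact lt_of_le_of_lt (mul_le_of_le_one_left' ha) ih
    · rw [map_mul, map_pow]
      exact mul_lt_one_of_lt_of_le hab (pow_le_one' hb n)

/-- the dominant term of `(z + c) ^ p - z ^ p` -/
lemma dom (p : ℕ) (z c : K) (hp : v (p : K) = 1) (hc : v c = 1) (hz : 1 < v z) (hp0 : p ≠ 0) :
    v ((z + c) ^ p - z ^ p) = v z ^ (p - 1) := by
  have hz0 : z ≠ 0 := by
    rintro rfl
    rw [map_zero] at hz
    exact absurd hz (not_lt.mpr zero_le_one)
  set u := c / z with hu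
  have hvu : v u < 1 := by
    rw [hu, map_div₀, hc]
    rw [one_div]
    exact inv_lt_one_of_one_lt₀ hz
  have h1 : (z + c) ^ p - z ^ p = c * z ^ (p - 1) * ∑ i ∈ Finset.range p, (1 + u) ^ i := by
    have h2 := geom_sum_mul (1 + u) p
    have h3 : (z + c) ^ p = z ^ p * (1 + u) ^ p := by
      rw [← mul_pow, hu]
      congr 1
      field_simp
    obtain ⟨m, rfl⟩ : ∃ m, p = m + 1 := ⟨p - 1, by omega⟩
    rw [h3, Nat.add_sub_cancel]
    have h4 : c = z * u := by rw [hu]; field_simp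
    calc z ^ (m + 1) * (1 + u) ^ (m + 1) - z ^ (m + 1) = z ^ (m + 1) * ((1 + u) ^ (m + 1) - 1) := by
          ring
      _ = z ^ (m + 1) * ((∑ i ∈ Finset.range (m + 1), (1 + u) ^ i) * (1 + u - 1)) := by rw [h2]
      _ = (z * u) * z ^ m * ∑ i ∈ Finset.range (m + 1), (1 + u) ^ i := by ring
      _ = c * z ^ m * ∑ i ∈ Finset.range (m + 1), (1 + u) ^ i := by rw [← h4]
  have h1u : v (1 + u) ≤ 1 := by
    refine (v.map_add _ _).trans (max_le ?_ hvu.le)
    rw [map_one]
  have h5 : v (∑ i ∈ Finset.range p, (1 + u) ^ i) = 1 := by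
    have h6 : ∑ i ∈ Finset.range p, (1 + u) ^ i =
        (p : K) + ∑ i ∈ Finset.range p, ((1 + u) ^ i - 1 ^ i) := by
      rw [Finset.sum_sub_distrib]
      simp
    have h7 : v (∑ i ∈ Finset.range p, ((1 + u) ^ i - 1 ^ i)) < 1 := by
      refine Valuation.map_sum_lt v one_ne_zero fun i _ => ?_
      exact pow_sub v _ _ h1u (by rw [map_one]) (by simpa using hvu) i
    rw [h6, Valuation.map_add_eq_of_lt_left, hp]
    rwa [hp]
  rw [h1, map_mul, map_mul, map_pow, hc, h5, one_mul, mul_one]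

/-- the local analysis at a place with `v M < 1`, `v c = 1`, `v p = 1` -/
lemma core (hz : ∀ z : ℤ, v (z : K) ≤ 1) (p e : ℕ) (hp2 : 2 < p) (g r : ℤ[X])
    (hg : g.Monic) (hgn : g.natDegree = e) (hr : r.degree < ((p - 1) * e : ℕ)) (c M : ℤ)
    (θ : K) (hp : v (p : K) = 1) (hc : v (c : K) = 1) (hM : v (M : K) < 1) (hM0 : v (M : K) ≠ 0)
    (hrel : ((M : K) * aeval θ g + c) ^ p = (M : K) ^ p * (aeval θ g ^ p + aeval θ r)) :
    1 < v θ ∧ v ((M : K) * aeval θ g) = 1 ∧ v (M : K) * v θ ^ e = 1 ∧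
      v (((M : K) * aeval θ g + c) ^ p - ((M : K) * aeval θ g) ^ p) < 1 := by
  have hM1 : (0 : Γ) < v (M : K) := zero_lt_iff.mpr hM0
  have hp0 : p ≠ 0 := by omega
  -- `θ` is not integral
  have hθ : 1 < v θ := by
    by_contra hcon
    rw [not_lt] at hcon
    have h1 : v (aeval θ g) ≤ 1 := pol_le v hz θ hcon g
    have h2 : v ((M : K) * aeval θ g) < 1 := by
      rw [map_mul]
      exact mul_lt_one_of_lt_of_le hM h1
    have h3 : v ((M : K) * aeval θ g + c) = 1 := by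
      rw [Valuation.map_add_eq_of_lt_right, hc]
      rwa [hc]
    have h4 : v (aeval θ g ^ p + aeval θ r) ≤ 1 := by
      have := pol_le v hz θ hcon (g ^ p + r)
      rwa [map_add, map_pow] at this
    have h5 := congrArg v hrel
    rw [map_pow, h3, one_pow, map_mul, map_pow] at h5
    have h6 : v (M : K) ^ p * v (aeval θ g ^ p + aeval θ r) < 1 :=
      mul_lt_one_of_lt_of_le (pow_lt_one₀ zero_le hM hp0) h4
    rw [← h5] at h6
    exact lt_irrefl _ h6
  have hg1 : v (aeval θ g) = v θ ^ e := by rw [pol_monic v hz θ hθ g hg, hgn]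
  have hr1 : v (aeval θ r) < v θ ^ ((p - 1) * e) := pol_lt v hz θ hθ r _ hr
  set z : K := (M : K) * aeval θ g with hzd
  have hvz : v z = v (M : K) * v θ ^ e := by rw [hzd, map_mul, hg1]
  have hrel2 : (z + c) ^ p - z ^ p = (M : K) ^ p * aeval θ r := by
    rw [hrel, hzd]; ring
  have hθ0 : (0 : Γ) < v θ := lt_trans zero_lt_one hθ
  have hrM : v ((M : K) ^ p * aeval θ r) < v (M : K) * v z ^ (p - 1) := by
    rw [map_mul, map_pow, hvz, mul_pow, ← mul_assoc, ← pow_succ', ← pow_mul, mul_comm e]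
    have : p - 1 + 1 = p := by omega
    rw [this]
    exact mul_lt_mul_of_pos_left hr1 (pow_pos hM1 p)
  have ht : v z = 1 := by
    rcases lt_trichotomy (v z) 1 with h | h | h
    · exfalso
      have h3 : v (z + c) = 1 := by
        rw [Valuation.map_add_eq_of_lt_right, hc]
        rwa [hc]
      have h4 : v ((z + c) ^ p - z ^ p) = 1 := by
        rw [Valuation.map_sub_eq_of_lt_left, map_pow, h3, one_pow]
        rw [map_pow, map_pow, h3, one_pow]
        exact pow_lt_one₀ zero_le h hp0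
      rw [hrel2] at h4
      rw [h4] at hrM
      have h5 : v (M : K) * v z ^ (p - 1) < 1 :=
        mul_lt_one_of_lt_of_le hM (pow_le_one' h.le _)
      exact lt_asymm hrM h5
    · exact h
    · exfalso
      have h3 := dom v p z c hp hc h hp0
      rw [hrel2] at h3
      rw [h3] at hrM
      have h5 : v (M : K) * v z ^ (p - 1) < 1 * v z ^ (p - 1) :=
        mul_lt_mul_of_pos_right hM (pow_pos (lt_trans zero_lt_one h) _)
      rw [one_mul] at h5
      exact lt_asymm hrM h5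
  refine ⟨hθ, ht, hvz ▸ ht, ?_⟩
  rw [hrel2]
  refine hrM.trans ?_
  rw [ht, one_pow, mul_one]
  exact hM

end Val

/-- a maximal ideal above `q`, with `q ∈ P ^ e` and a `p`-th root of unity `≠ 1` modulo `P` -/
lemma place {p e k : ℕ} (D : DatP p e k) (c M : ℤ) (q : ℕ) (K : Type) [Field K] [NumberField K]
    (θ : K) (hq : q.Prime) (hcM : IsCoprime c M) (hqM : (q : ℤ) ∣ M) (hqM2 : ¬ (q : ℤ) ^ 2 ∣ M)
    (hqp : q ≠ p) (hθ : aeval θ (HP p D.g D.r c M) = 0) :
    ∃ P : Ideal (𝓞 K), P.IsMaximal ∧ (∀ z : ℤ, (z : 𝓞 K) ∈ P → (q : ℤ) ∣ z) ∧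
      ((q : ℤ) : 𝓞 K) ∈ P ^ e ∧ ∃ x y : 𝓞 K, y ∉ P ∧ x - y ∉ P ∧ x ^ p - y ^ p ∈ P := by
  have hqP' : Prime (q : ℤ) := Nat.prime_iff_prime_int.mp hq
  have hqnu : ¬ IsUnit ((q : ℤ) : 𝓞 K) := by
    intro h
    have h1 := Algebra.norm ℤ ((q : ℤ) : 𝓞 K)
    have h2 : IsUnit (Algebra.norm ℤ ((q : ℤ) : 𝓞 K)) := h.map _
    have h3 : Algebra.norm ℤ ((q : ℤ) : 𝓞 K) = (q : ℤ) ^ Module.finrank ℤ (𝓞 K) := by
      have := Algebra.norm_algebraMap (S := 𝓞 K) (q : ℤ)
      simpa using this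
    rw [h3] at h2
    have h4 : Module.finrank ℤ (𝓞 K) ≠ 0 := by
      rw [RingOfIntegers.rank]
      exact Module.finrank_pos.ne'
    exact hqP'.not_isUnit ((isUnit_pow_iff h4).mp h2)
  obtain ⟨P, hPmax, hqP⟩ := exists_max_ideal_of_mem_nonunits hqnu
  have hint' : ∀ z : ℤ, (z : 𝓞 K) ∈ P → (q : ℤ) ∣ z := by
    intro z hz
    by_contra hh
    obtain ⟨c, d, hcd⟩ := (Irreducible.coprime_iff_not_dvd hqP'.irreducible).mpr hh
    apply hPmax.ne_top
    rw [Ideal.eq_top_iff_one]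
    have : (1 : 𝓞 K) = (c : 𝓞 K) * ((q : ℤ) : 𝓞 K) + (d : 𝓞 K) * (z : 𝓞 K) := by
      exact_mod_cast hcd.symm
    rw [this]
    exact P.add_mem (P.mul_mem_left _ hqP) (P.mul_mem_left _ hz)
  have hPbot : P ≠ ⊥ := by
    rintro rfl
    rw [Ideal.mem_bot] at hqP
    exact hqP'.ne_zero (by exact_mod_cast hqP)
  let w : IsDedekindDomain.HeightOneSpectrum (𝓞 K) := ⟨P, hPmax.isPrime, hPbot⟩
  set v := w.valuation K with hv
  have hzv : ∀ z : ℤ, v (z : K) = w.intValuation (z : 𝓞 K) := by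
    intro z
    have := w.valuation_of_algebraMap (K := K) (z : 𝓞 K)
    rw [← this]
    simp [hv]
  have hz1 : ∀ z : ℤ, v (z : K) ≤ 1 := fun z => by rw [hzv]; exact w.intValuation_le_one _
  have hze : ∀ z : ℤ, ¬ (q : ℤ) ∣ z → v (z : K) = 1 := by
    intro z h
    rw [hzv, IsDedekindDomain.HeightOneSpectrum.intValuation_eq_one_iff]
    exact fun h1 => h (hint' z h1)
  have hqc : ¬ (q : ℤ) ∣ c := by
    intro h
    exact hqP'.not_isUnit (hcM.isUnit_of_dvd' h hqM)
  have hqpp : ¬ (q : ℤ) ∣ (p : ℤ) := by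
    intro h
    have h1 : q ∣ p := by exact_mod_cast h
    exact hqp ((Nat.prime_dvd_prime_iff_eq hq D.hp).mp h1)
  obtain ⟨M', hM'⟩ := hqM
  have hqM' : ¬ (q : ℤ) ∣ M' := by
    intro h
    exact hqM2 (by rw [hM', pow_two]; exact mul_dvd_mul_left _ h)
  have hM0 : M ≠ 0 := by
    rintro rfl
    exact hqM2 (dvd_zero _)
  have hvM : v (M : K) = v ((q : ℤ) : K) := by
    rw [hM', Int.cast_mul, map_mul, hze M' hqM', mul_one]
  have hvq : v ((q : ℤ) : K) < 1 := by
    rw [hzv, w.intValuation_lt_one_iff_mem]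
    exact hqP
  have hrel : ((M : K) * aeval θ D.g + c) ^ p = (M : K) ^ p * (aeval θ D.g ^ p + aeval θ D.r) := by
    have := hθ
    rw [HP] at this
    simp only [map_sub, map_pow, map_add, map_mul, eq_intCast] at this
    have h := sub_eq_zero.mp this
    simpa using h
  obtain ⟨h1, h2, h3, h4⟩ := core v hz1 p e D.hp2 D.g D.r D.hg D.hgn D.hr c M θ
    (by have := hze p hqpp; simpa using this) (hze c hqc) (by rw [hvM]; exact hvq)
    (by rw [Valuation.ne_zero_iff]; exact_mod_cast hM0) hrel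
  refine ⟨P, hPmax, hint', ?_, ?_⟩
  · -- ramification
    have h5 : w.intValuation ((q : ℤ) : 𝓞 K) ≤ WithZero.exp (-(e : ℤ)) := by
      rw [← hzv, ← hvM]
      have h0 : (0 : WithZero (Multiplicative ℤ)) < v θ := lt_trans zero_lt_one h1
      have h6 : WithZero.exp (1 : ℤ) ≤ v θ := by
        have h7 : v θ = WithZero.exp (WithZero.log (v θ)) := (WithZero.exp_log h0.ne').symm
        rw [h7] at h1 ⊢
        rw [← WithZero.exp_zero, WithZero.exp_lt_exp] at h1
        rw [WithZero.exp_le_exp]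
        omega
      have h8 : v (M : K) = (v θ ^ e)⁻¹ := eq_inv_of_mul_eq_one_left h3
      rw [h8, WithZero.exp_neg]
      have h9 : WithZero.exp (e : ℤ) ≤ v θ ^ e := by
        have : WithZero.exp (e : ℤ) = WithZero.exp (1 : ℤ) ^ e := by
          rw [← WithZero.exp_nsmul]
          simp
        rw [this]
        exact pow_le_pow_left₀ zero_le h6 e
      exact inv_anti₀ (by simp) h9
    exact (w.intValuation_le_pow_iff_mem _ e).mp h5
  · obtain ⟨n, ⟨d, hd⟩, hnd⟩ := w.exists_primeCompl_mul_eq_of_integer ((M : K) * aeval θ D.g) h2.le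
    have hdP : d ∉ P := hd
    have hvd : v (algebraMap (𝓞 K) K d) = 1 := by
      rw [hv, IsDedekindDomain.HeightOneSpectrum.valuation_eq_one_iff_notMem]
      exact hdP
    have hnP : n ∉ P := by
      have : v (algebraMap (𝓞 K) K n) = 1 := by
        rw [← hnd, map_mul, h2]
        simpa using hvd
      rw [hv, IsDedekindDomain.HeightOneSpectrum.valuation_eq_one_iff_notMem] at this
      exact this
    refine ⟨n + c * d, n, hnP, ?_, ?_⟩
    · rw [add_sub_cancel_left]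
      intro h
      rcases hPmax.isPrime.mem_or_mem h with h | h
      · exact hqc (hint' c h)
      · exact hdP h
    · have h5 : w.valuation K (algebraMap (𝓞 K) K ((n + c * d) ^ p - n ^ p)) < 1 := by
        have h6 : algebraMap (𝓞 K) K ((n + c * d) ^ p - n ^ p) = algebraMap (𝓞 K) K d ^ p *
            (((M : K) * aeval θ D.g + c) ^ p - ((M : K) * aeval θ D.g) ^ p) := by
          have hnd' : (M : K) * aeval θ D.g * algebraMap (𝓞 K) K d = algebraMap (𝓞 K) K n := hnd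
          rw [map_sub, map_pow, map_pow, map_add, map_mul, map_intCast, ← hnd', mul_sub, ← mul_pow,
            ← mul_pow]
          congr 2 <;> ring
        rw [h6, map_mul, map_pow, ← hv, hvd, one_pow, one_mul]
        exact h4
      exact (w.valuation_lt_one_iff_mem _).mp h5

/-- the discriminant -/
theorem t_DSC : S_DSC := by
  intro p e k D c M q K _ _ θ hq hcM hqM hqM2 hqp hθ
  obtain ⟨P, hPmax, hint', hqe, -⟩ := place D c M q K θ hq hcM hqM hqM2 hqp hθ
  have hqP' : Prime (q : ℤ) := Nat.prime_iff_prime_int.mp hq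
  have hq2 : ((q : ℤ) : 𝓞 K) ∈ P ^ 2 := Ideal.pow_le_pow_right D.he hqe
  have hmax : (Ideal.span {(q : ℤ)}).IsMaximal :=
    PrincipalIdealRing.isMaximal_of_irreducible hqP'.irreducible
  have hPd : P ^ (2 - 1) ∣ differentIdeal ℤ (𝓞 K) := by
    refine pow_sub_one_dvd_differentIdeal ℤ (p := Ideal.span {(q : ℤ)}) P 2 ?_ ?_
    · rw [Ne, Ideal.span_singleton_eq_bot]
      exact hqP'.ne_zero
    · rw [Ideal.map_span, Set.image_singleton, Ideal.dvd_span_singleton]
      simpa using hq2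
  rw [show 2 - 1 = 1 by norm_num, pow_one] at hPd
  have h5 : Ideal.absNorm P ∣ (discr K).natAbs := by
    rw [← absNorm_differentIdeal K (𝓞 K)]
    exact map_dvd _ hPd
  have h6 : (q : ℤ) ∣ (Ideal.absNorm P : ℤ) := hint' _ (by exact_mod_cast Ideal.absNorm_mem P)
  have h7 : (Ideal.absNorm P : ℤ) ∣ discr K := Int.natCast_dvd.mpr h5
  exact h6.trans h7

/-- a nontrivial `p`-th root of unity modulo `P` -/
lemma root_dvd (K : Type) [Field K] [NumberField K] (p : ℕ) (hp : p.Prime) (P : Ideal (𝓞 K))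
    (hP : P.IsMaximal) (x y : 𝓞 K) (hy : y ∉ P) (hxy : x - y ∉ P) (h : x ^ p - y ^ p ∈ P)
    (hP0 : Ideal.absNorm P ≠ 0) : p ∣ Ideal.absNorm P - 1 := by
  letI : Field (𝓞 K ⧸ P) := Ideal.Quotient.field P
  have hfin : Finite (𝓞 K ⧸ P) := by
    have : Nat.card (𝓞 K ⧸ P) ≠ 0 := by
      rwa [Ideal.absNorm_apply, Submodule.cardQuot_apply] at hP0
    exact Nat.finite_of_card_ne_zero this
  set f := Ideal.Quotient.mk P with hf
  have hy0 : f y ≠ 0 := fun h0 => hy (Ideal.Quotient.eq_zero_iff_mem.mp h0)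
  have hxy0 : f x ≠ f y := fun h0 => hxy (Ideal.Quotient.eq.mp h0)
  have hpow : f x ^ p = f y ^ p := by
    rw [← map_pow, ← map_pow]
    exact Ideal.Quotient.eq.mpr h
  have hx0 : f x ≠ 0 := by
    intro h0
    rw [h0, zero_pow hp.ne_zero] at hpow
    exact hy0 (pow_eq_zero_iff hp.ne_zero |>.mp hpow.symm)
  let ζ : (𝓞 K ⧸ P)ˣ := Units.mk0 (f x) hx0 / Units.mk0 (f y) hy0
  have hζ1 : ζ ≠ 1 := by
    intro h1
    have h2 := div_eq_one.mp h1
    exact hxy0 (by simpa using congrArg Units.val h2)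
  have hζp : ζ ^ p = 1 := by
    rw [div_pow, div_eq_one]
    ext
    simpa using hpow
  have : Fact p.Prime := ⟨hp⟩
  have ho : orderOf ζ = p := orderOf_eq_prime hζp hζ1
  have h3 : orderOf ζ ∣ Nat.card (𝓞 K ⧸ P)ˣ := orderOf_dvd_natCard ζ
  rw [ho] at h3
  have h4 : Nat.card (𝓞 K ⧸ P)ˣ = Ideal.absNorm P - 1 := by
    rw [Nat.card_units, Ideal.absNorm_apply, Submodule.cardQuot_apply]
  rwa [h4] at h3

theorem t_DEG : S_DEG := by
  intro p e k D c M q K _ _ θ hq hcM hqM hqM2 hqp hord hθ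
  obtain ⟨P, hPmax, hint', hqe, x, y, hy, hxy, hpw⟩ := place D c M q K θ hq hcM hqM hqM2 hqp hθ
  set n := Module.finrank ℚ K with hn
  have hnq : Ideal.absNorm (Ideal.span {((q : ℤ) : 𝓞 K)}) = q ^ n := by
    rw [Ideal.absNorm_span_singleton]
    have h3 : Algebra.norm ℤ ((q : ℤ) : 𝓞 K) = (q : ℤ) ^ Module.finrank ℤ (𝓞 K) := by
      have := Algebra.norm_algebraMap (S := 𝓞 K) (q : ℤ)
      simpa using this
    rw [h3, RingOfIntegers.rank, Int.natAbs_pow, Int.natAbs_natCast]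
  have hdv : P ^ e ∣ Ideal.span {((q : ℤ) : 𝓞 K)} := by
    rw [Ideal.dvd_span_singleton]
    exact hqe
  have hN : Ideal.absNorm P ^ e ∣ q ^ n := by
    rw [← hnq, ← map_pow]
    exact map_dvd _ hdv
  have he0 : e ≠ 0 := by have := D.he; omega
  have hN1 : Ideal.absNorm P ∣ q ^ n := (dvd_pow_self _ he0).trans hN
  obtain ⟨f, hf1, hf⟩ := (Nat.dvd_prime_pow hq).mp hN1
  have hP0 : Ideal.absNorm P ≠ 0 := by rw [hf]; exact pow_ne_zero _ hq.ne_zero
  have hf0 : f ≠ 0 := by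
    rintro rfl
    rw [pow_zero] at hf
    exact hPmax.ne_top (Ideal.absNorm_eq_one_iff.mp hf)
  have hpd := root_dvd K p D.hp P hPmax x y hy hxy hpw hP0
  rw [hf] at hpd
  have hq1 : (q : ZMod p) ^ f = 1 := by
    have h1 : 1 ≤ q ^ f := Nat.one_le_pow _ _ hq.pos
    have h2 : ((q ^ f - 1 : ℕ) : ZMod p) = 0 := (ZMod.natCast_eq_zero_iff _ _).mpr hpd
    rw [Nat.cast_sub h1] at h2
    push_cast at h2
    exact sub_eq_zero.mp h2
  have hfd : p - 1 ∣ f := by
    rw [← hord]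
    exact orderOf_dvd_of_pow_eq_one hq1
  have hfp : p - 1 ≤ f := Nat.le_of_dvd (Nat.pos_of_ne_zero hf0) hfd
  rw [hf, ← pow_mul] at hN
  have h5 : f * e ≤ n := (Nat.pow_dvd_pow_iff_le_right hq.one_lt).mp hN
  exact (Nat.mul_le_mul_right e hfp).trans h5

end Pool.Agent.J4H82.TP
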